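import Pool.Agent.Lib.MP_b7b1cf_co.U

set_option autoImplicit false

namespace Pool.Agent.Results.MP_b7b1cf_co.Signatures

universe u

/-- `S` is a circuit signature of the matroid `M`: a set of sign vectors whose supports are exactly
the circuits of `M`, each circuit carrying exactly two opposite sign vectors. -/
structure IsSignature {E : Type u} (M : Matroid E) (S : Set (E → SignType)) : Prop where
  isCircuit : ∀ X ∈ S, M.IsCircuit (Function.support X)
  exists_sign : ∀ C : Set E, M.IsCircuit C → ∃ X ∈ S, Function.support X = C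
  neg_mem : ∀ X ∈ S, -X ∈ S
  eq_or_eq_neg : ∀ X ∈ S, ∀ Y ∈ S, Function.support X = Function.support Y → X = Y ∨ X = -Y

/-- An oriented matroid on `E` (orthogonality axioms): a matroid with ground set `E`, signed
circuits and signed cocircuits, every signed circuit orthogonal to every signed cocircuit. -/
structure OrientedMatroid (E : Type u) : Type u where
  matroid : Matroid E
  ground : matroid.E = Set.univ
  circuits : Set (E → SignType)
  cocircuits : Set (E → SignType)
  circuits_sign : IsSignature matroid circuits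
  cocircuits_sign : IsSignature matroid.dual cocircuits
  orthogonal : ∀ X ∈ circuits, ∀ Y ∈ cocircuits,
    (∀ e : E, X e * Y e = 0) ∨ ∃ e f : E, X e * Y e = 1 ∧ X f * Y f = -1

/-- All compositions `X₁ ∘ X₂ ∘ ⋯ ∘ Xₖ` (`k ≥ 0`) of members of `S`, where `(X ∘ Y) e` is `X e`
if `X e ≠ 0` and `Y e` otherwise. -/
def compositions {E : Type u} (S : Set (E → SignType)) : Set (E → SignType) :=
  {Z | ∃ l : List (E → SignType), (∀ X ∈ l, X ∈ S) ∧
    Z = l.foldr (fun X Y e => if X e = 0 then Y e else X e) 0}

/-- The vectors: compositions of signed circuits. -/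
def OrientedMatroid.vectors {E : Type u} (M : OrientedMatroid E) : Set (E → SignType) :=
  compositions M.circuits

/-- The covectors: compositions of signed cocircuits. -/
def OrientedMatroid.covectors {E : Type u} (M : OrientedMatroid E) : Set (E → SignType) :=
  compositions M.cocircuits

open Pool.Agent.Lib.MP_b7b1cf_co.U

section

variable {E : Type u}

theorem comp_zero (S : Set (E → SignType)) : (0 : E → SignType) ∈ compositions S :=
  ⟨[], by simp, rfl⟩

theorem comp_cons {S : Set (E → SignType)} {X Y : E → SignType} (hX : X ∈ S)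
    (hY : Y ∈ compositions S) : cmp X Y ∈ compositions S := by
  obtain ⟨l, hl, rfl⟩ := hY
  refine ⟨X :: l, fun Z hZ => ?_, rfl⟩
  rcases List.mem_cons.1 hZ with rfl | h
  · exact hX
  · exact hl Z h

theorem comp_ind {S : Set (E → SignType)} (P : (E → SignType) → Prop) (h0 : P 0)
    (h1 : ∀ X ∈ S, ∀ Y, P Y → P (cmp X Y)) : ∀ Z ∈ compositions S, P Z := by
  rintro Z ⟨l, hl, rfl⟩
  induction l with
  | nil => exact h0
  | cons X l ih =>
    exact h1 X (hl X List.mem_cons_self) _ (ih fun Y hY => hl Y (List.mem_cons_of_mem _ hY))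

theorem comp_of_mem {S : Set (E → SignType)} {X : E → SignType} (hX : X ∈ S) :
    X ∈ compositions S := by
  have := comp_cons hX (comp_zero S)
  convert this using 1
  funext e
  by_cases h : X e = 0 <;> simp [Pool.Agent.Lib.MP_b7b1cf_co.U.cmp, h]

theorem comp_comp (S : Set (E → SignType)) :
    ∀ X ∈ compositions S, ∀ Y ∈ compositions S, cmp X Y ∈ compositions S := by
  intro X hX Y hY
  refine comp_ind (fun Z => cmp Z Y ∈ compositions S) ?_ (fun A hA B hB => ?_) X hX
  · convert hY using 1
    funext e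
    simp [Pool.Agent.Lib.MP_b7b1cf_co.U.cmp]
  · convert comp_cons hA hB using 1
    funext e
    by_cases h : A e = 0 <;> simp [Pool.Agent.Lib.MP_b7b1cf_co.U.cmp, h]

theorem comp_neg {S : Set (E → SignType)} (hS : ∀ X ∈ S, -X ∈ S) :
    ∀ X ∈ compositions S, -X ∈ compositions S := by
  refine comp_ind (fun Z => -Z ∈ compositions S) ?_ (fun A hA B hB => ?_)
  · simpa using comp_zero S
  · convert comp_cons (hS A hA) hB using 1
    funext e
    by_cases h : A e = 0 <;> simp [Pool.Agent.Lib.MP_b7b1cf_co.U.cmp, h]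

theorem orth_symm {X Y : E → SignType} (h : Orth X Y) : Orth Y X := by
  unfold Orth at h ⊢
  simpa only [mul_comm] using h

theorem comp_orth {S T : Set (E → SignType)} (h : ∀ X ∈ S, ∀ Y ∈ T, Orth X Y) :
    ∀ Y ∈ compositions T, ∀ X ∈ compositions S, Orth X Y := by
  have h1 : ∀ X ∈ compositions S, X ∈ perp T :=
    comp_ind (fun Z => Z ∈ perp T) (perp_zero T)
      (fun A hA B hB => perp_comp T A (fun Y hY => orth_symm (h A hA Y hY)) B hB)
  exact comp_ind (fun Z => Z ∈ perp (compositions S)) (perp_zero _)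
    (fun A hA B hB => perp_comp _ A (fun X hX => orth_symm (h1 X hX A hA)) B hB)

/-- A composition of signed circuits supported in an independent set is zero. -/
theorem comp_eq_zero {M : Matroid E} {S : Set (E → SignType)} (hS : IsSignature M S) {I : Set E}
    (hI : M.Indep I) : ∀ X ∈ compositions S, (∀ e, e ∉ I → X e = 0) → X = 0 := by
  refine comp_ind (fun Z => (∀ e, e ∉ I → Z e = 0) → Z = 0) (fun _ => rfl) (fun A hA B _ h => ?_)
  refine absurd (hI.subset fun e he => ?_) (hS.isCircuit A hA).not_indep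
  by_contra h'
  have h2 : A e ≠ 0 := he
  have := h e h'
  simp [Pool.Agent.Lib.MP_b7b1cf_co.U.cmp, h2] at this

/-- One-element painting: a cocircuit or a circuit through `e`. -/
theorem base (M : OrientedMatroid E) (B : E → Prop) (e : E) :
    (∃ X ∈ M.covectors, X e ≠ 0 ∧ ∀ f, f ≠ e → B f → X f = 0) ∨
    (∃ Y ∈ M.vectors, Y e ≠ 0 ∧ ∀ f, f ≠ e → ¬ B f → Y f = 0) := by
  by_cases h : e ∈ M.matroid.closure {f | f ≠ e ∧ B f}
  · obtain ⟨C, h1, h2, h3⟩ := Matroid.exists_isCircuit_of_mem_closure h (by simp)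
    obtain ⟨Y, hY, rfl⟩ := M.circuits_sign.exists_sign C h2
    refine Or.inr ⟨Y, comp_of_mem hY, h3, fun f hf hB => ?_⟩
    by_contra h4
    rcases h1 h4 with h5 | h5
    · exact hf h5
    · exact hB h5.2
  · obtain ⟨I, hI⟩ := M.matroid.exists_isBasis' {f | f ≠ e ∧ B f}
    have heI : e ∉ I := fun h1 => (hI.subset h1).1 rfl
    have h1 : M.matroid.Indep (insert e I) := by
      rw [hI.indep.insert_indep_iff_of_notMem heI, hI.closure_eq_closure, M.ground]
      exact ⟨trivial, h⟩
    obtain ⟨D, hD, hID⟩ := h1.exists_isBase_superset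
    have heD : e ∈ D := hID (Set.mem_insert _ _)
    obtain ⟨X, hX, hs⟩ := M.cocircuits_sign.exists_sign _
      (hD.compl_closure_sdiff_singleton_isCocircuit heD)
    refine Or.inl ⟨X, comp_of_mem hX, ?_, fun f hf hB => ?_⟩
    · have : e ∈ Function.support X := by
        rw [hs, M.ground]
        exact ⟨trivial, hD.indep.notMem_closure_sdiff_of_mem heD⟩
      exact this
    · by_contra h4
      have h5 : f ∈ Function.support X := h4
      rw [hs] at h5
      refine h5.2 (M.matroid.closure_subset_closure (X := I) (fun g hg => ?_) ?_)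
      · exact ⟨hID (Set.mem_insert_of_mem _ hg), fun h6 => heI (h6 ▸ hg)⟩
      · rw [hI.closure_eq_closure]
        exact M.matroid.subset_closure _ (by rw [M.ground]; exact Set.subset_univ _) ⟨hf, hB⟩

theorem package [Fintype E] (M : OrientedMatroid E) :
    IsOM M.covectors ∧ IsOM M.vectors ∧ Paint M.covectors M.vectors := by
  classical
  have o1 : ∀ Y ∈ M.covectors, ∀ X ∈ M.vectors, Orth X Y := comp_orth M.orthogonal
  have o2 : ∀ Y ∈ M.vectors, ∀ X ∈ M.covectors, Orth X Y :=
    fun Y hY X hX => orth_symm (o1 X hX Y hY)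
  have n1 := comp_neg M.cocircuits_sign.neg_mem
  have n2 := comp_neg M.circuits_sign.neg_mem
  have p : Paint M.covectors M.vectors := paint_of_base n1 n2 o2 (base M)
  exact ⟨⟨comp_zero _, n1, comp_comp _, elim_of_paint p.symm (comp_zero _) (comp_comp _) o1⟩,
    ⟨comp_zero _, n2, comp_comp _, elim_of_paint p (comp_zero _) (comp_comp _) o2⟩, p⟩

end

/-- An admissible pair of oriented matroids on a finite set has a common nonzero covector if and
only if it has a common nonzero vector. -/
theorem result {E : Type u} [Finite E] (M N : OrientedMatroid E)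
    (hunion : ∃ I J : Set E, M.matroid.Indep I ∧ N.matroid.Indep J ∧ I ∪ J = Set.univ)
    (hrank : M.matroid.eRank + N.matroid.eRank = (Nat.card E : ℕ∞)) :
    (∃ X : E → SignType, X ≠ 0 ∧ X ∈ M.covectors ∧ X ∈ N.covectors) ↔
      (∃ Y : E → SignType, Y ≠ 0 ∧ Y ∈ M.vectors ∧ Y ∈ N.vectors) := by
  classical
  have := Fintype.ofFinite E
  obtain ⟨I₀, J₀, hI₀, hJ₀, hU₀⟩ := hunion
  obtain ⟨I, hI, hII⟩ := hI₀.exists_isBase_superset
  obtain ⟨J, hJ, hJJ⟩ := hJ₀.exists_isBase_superset
  have hU : I ∪ J = Set.univ :=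
    Set.eq_univ_of_univ_subset (hU₀ ▸ Set.union_subset_union hII hJJ)
  have hD : I ∩ J = ∅ := by
    have h1 := Set.encard_union_add_encard_inter I J
    rw [hU, hI.encard_eq_eRank, hJ.encard_eq_eRank, hrank, Set.encard_univ,
      ENat.card_eq_coe_natCard] at h1
    have h2 : (I ∩ J).encard = 0 := by
      have h3 : (Nat.card E : ℕ∞) + (I ∩ J).encard = (Nat.card E : ℕ∞) + 0 := by
        rw [h1, add_zero]
      exact WithTop.add_left_cancel (ENat.natCast_ne_top _) h3
    exact Set.encard_eq_zero.1 h2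
  have hc : ∀ e, e ∉ I ↔ e ∈ J := fun e =>
    ⟨fun h => ((hU ▸ Set.mem_univ e : e ∈ I ∪ J)).resolve_left h,
      fun h h' => (hD ▸ (⟨h', h⟩ : e ∈ I ∩ J) : e ∈ (∅ : Set E))⟩
  obtain ⟨a₁, b₁, p₁⟩ := package M
  obtain ⟨a₂, b₂, p₂⟩ := package N
  have s₁ := comp_eq_zero M.cocircuits_sign hI.compl_isBase_dual.indep
  have s₂ := comp_eq_zero N.cocircuits_sign hJ.compl_isBase_dual.indep
  have t₁ := comp_eq_zero M.circuits_sign hI.indep
  have t₂ := comp_eq_zero N.circuits_sign hJ.indep
  rw [M.ground] at s₁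
  rw [N.ground] at s₂
  constructor
  · exact common_of_common a₁ a₂ b₁ b₂ p₁ p₂ (fun e => e ∉ I)
      (fun X hX h => s₁ X hX fun e he => h e fun h' => he ⟨trivial, h'⟩)
      (fun X hX h => s₂ X hX fun e he => h e ((hc e).2 (by
        by_contra h'
        exact he ⟨trivial, h'⟩)))
  · exact common_of_common b₁ b₂ a₁ a₂ p₁.symm p₂.symm (fun e => e ∈ I)
      (fun X hX h => t₁ X hX h)
      (fun X hX h => t₂ X hX fun e he => h e (by
        by_contra h'
        exact he ((hc e).1 h')))

end Pool.Agent.Results.MP_b7b1cf_co.Signatures
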